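import Pool.Agent.K1H50.AL.Nat
import Pool.Agent.Results.MP_73869e_nt.ThreePrimeFactors
import Pool.Agent.Results.MP_73869e_nt.FivePrimeFactors

/-!
Numbers with at most three or five prime factors above squares: the exceptional sets in dyadic windows.
-/

set_option autoImplicit false

open Filter Topology

namespace Pool.Agent.K1H50.AL

open Pool.Agent.Results.MP_73869e_nt

lemma DUp_mono {ε : ℝ} {E F : Set ℕ} (h : DUp ε E) (j1 : ℕ)
    (hEF : ∀ m, 1 ≤ m → j1 ≤ Nat.log 2 m → m ∈ F → m ∈ E) : DUp ε F := by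
  classical
  obtain ⟨j0, hj0⟩ := h
  refine ⟨max j0 j1, fun j hj Z Y hY h1 h2 => ?_⟩
  refine le_trans ?_ (hj0 j ((le_max_left _ _).trans hj) Z Y hY h1 h2)
  have hsub : (Finset.Ioc Z (Z + Y)).filter (fun n => n ∈ F) ⊆
      (Finset.Ioc Z (Z + Y)).filter (fun n => n ∈ E) := by
    intro n hn
    rw [Finset.mem_filter, Finset.mem_Ioc] at hn
    rw [Finset.mem_filter, Finset.mem_Ioc]
    have hpos : 0 < 2 ^ j := by positivity
    have hlog : Nat.log 2 n = j := by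
      rw [Nat.log_eq_iff (Or.inr ⟨by norm_num, by omega⟩)]
      omega
    exact ⟨hn.1, hEF n (by omega) (by rw [hlog]; exact (le_max_right _ _).trans hj) hn.2⟩
  exact_mod_cast Finset.card_le_card (by convert hsub)

/-- the lengths: between `K j` and `j ^ B` for all large `j` -/
def Lengths (K B : ℝ) (L : ℕ → ℕ) : Prop := ∀ᶠ j : ℕ in atTop, K * j ≤ L j ∧ (L j : ℝ) ≤ (j : ℝ) ^ B

lemma log_pow (j : ℕ) : Real.log ((2 ^ j : ℕ) : ℝ) = j * Real.log 2 := by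
  push_cast
  rw [Real.log_pow]

lemma len_conv (K B : ℝ) {L : ℕ → ℕ} (hL : Lengths (max K 0) B L) : ∀ᶠ j : ℕ in atTop,
    K * Real.log ((2 ^ j : ℕ) : ℝ) ≤ L j ∧ (L j : ℝ) ≤ Real.log ((2 ^ j : ℕ) : ℝ) ^ (|B| + 1) := by
  have hl2 : 0.69 < Real.log 2 ∧ Real.log 2 < 0.7 :=
    ⟨by linarith [Real.log_two_gt_d9], by linarith [Real.log_two_lt_d9]⟩
  have ev : ∀ᶠ j : ℕ in atTop, (2 : ℝ) ^ |B| * 2 ≤ (j : ℝ) :=
    tendsto_natCast_atTop_atTop.eventually_ge_atTop _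
  filter_upwards [hL, ev, eventually_ge_atTop 2] with j hj hj2 hj3
  obtain ⟨h1, h2⟩ := hj
  have hjr : (2 : ℝ) ≤ j := by exact_mod_cast hj3
  rw [log_pow]
  constructor
  · have h3 : K * (j * Real.log 2) ≤ max K 0 * (j * Real.log 2) :=
      mul_le_mul_of_nonneg_right (le_max_left _ _) (by nlinarith)
    have h4 : max K 0 * (j * Real.log 2) ≤ max K 0 * j :=
      mul_le_mul_of_nonneg_left (by nlinarith) (le_max_right _ _)
    linarith
  · refine h2.trans ?_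
    have h3 : (j : ℝ) ^ B ≤ (j : ℝ) ^ |B| :=
      Real.rpow_le_rpow_of_exponent_le (by linarith) (le_abs_self B)
    refine h3.trans ?_
    obtain ⟨y, hy⟩ : ∃ y : ℝ, y = j * Real.log 2 := ⟨_, rfl⟩
    rw [← hy]
    have hy0 : 0 < y := by rw [hy]; nlinarith
    have hjy : (j : ℝ) ≤ 2 * y := by rw [hy]; nlinarith
    have h5 : (j : ℝ) ^ |B| ≤ (2 * y) ^ |B| := Real.rpow_le_rpow (by linarith) hjy (abs_nonneg B)
    rw [Real.mul_rpow (by norm_num) hy0.le] at h5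
    refine h5.trans ?_
    rw [Real.rpow_add hy0, Real.rpow_one, mul_comm]
    apply mul_le_mul_of_nonneg_left _ (by positivity)
    have : (2 : ℝ) ^ |B| * 2 ≤ 2 * y := hj2.trans hjy
    linarith

/-- the numbers `m` with few almost primes (five factors) above `m ^ 2` -/
def E5 (c : ℝ) (L : ℕ → ℕ) : Set ℕ :=
  {m : ℕ | (FivePrimeFactors.N m (L (Nat.log 2 m)) : ℝ) < c * L (Nat.log 2 m) / Nat.log 2 m}

/-- the numbers `m` with many almost primes (three factors) above `m ^ 2` -/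
def E3 (c : ℝ) (L : ℕ → ℕ) : Set ℕ :=
  {m : ℕ | c * L (Nat.log 2 m) / Nat.log 2 m ≤ (ThreePrimeFactors.N m (L (Nat.log 2 m)) : ℝ)}

lemma log_of {j Z Y n : ℕ} (h1 : 2 ^ j ≤ Z + 1) (h2 : Z + Y < 2 ^ (j + 1)) (hn : n ∈ Finset.Ioc Z (Z + Y)) :
    Nat.log 2 n = j := by
  rw [Finset.mem_Ioc] at hn
  have hpos : 0 < 2 ^ j := by positivity
  rw [Nat.log_eq_iff (Or.inr ⟨by norm_num, by omega⟩)]
  omega

theorem five : ∃ c : ℝ, 0 < c ∧ ∀ ε B : ℝ, 0 < ε → ∃ K : ℝ, ∀ L : ℕ → ℕ, Lengths K B L →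
    DUp ε (E5 c L) := by
  classical
  obtain ⟨c, hc, H, -⟩ := FivePrimeFactors.result
  refine ⟨c, hc, fun ε B hε => ?_⟩
  obtain ⟨K, X0, h⟩ := H ε (|B| + 1) hε
  refine ⟨max K 0, fun L hL => ?_⟩
  obtain ⟨j1, hj1⟩ := eventually_atTop.1 (len_conv K B hL)
  refine ⟨max (max j1 X0) 1, fun j hj Z Y hY h1 h2 => ?_⟩
  have hjj1 : j1 ≤ j := (le_max_left _ _).trans ((le_max_left _ _).trans hj)
  have hjX : X0 ≤ j := (le_max_right _ _).trans ((le_max_left _ _).trans hj)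
  have hj0 : 1 ≤ j := (le_max_right _ _).trans hj
  have hjr : (1 : ℝ) ≤ j := by exact_mod_cast hj0
  obtain ⟨g1, g2⟩ := hj1 j hjj1
  have hj2 : j < 2 ^ j := Nat.lt_two_pow_self
  have hcast : ((2 ^ j : ℕ) : ℝ) = (2:ℝ) ^ j := by push_cast; ring
  have hmain := h (2 ^ j) (by omega) Z Y (L j) (by rw [hcast]; exact hY) (by rw [pow_succ] at h2; omega)
    g1 g2
  refine le_trans ?_ hmain
  have hl2 : 0 < Real.log 2 ∧ Real.log 2 < 1 :=
    ⟨Real.log_pos (by norm_num), by linarith [Real.log_two_lt_d9]⟩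
  have hsub : (Finset.Ioc Z (Z + Y)).filter (fun n => n ∈ E5 c L) ⊆
      (Finset.Ioc Z (Z + Y)).filter (fun n => (FivePrimeFactors.N n (L j) : ℝ) <
        c * (L j : ℕ) / Real.log ((2 ^ j : ℕ) : ℝ)) := by
    intro n hn
    rw [Finset.mem_filter] at hn ⊢
    refine ⟨hn.1, ?_⟩
    have h3 : (FivePrimeFactors.N n (L (Nat.log 2 n)) : ℝ) < c * L (Nat.log 2 n) / Nat.log 2 n := hn.2
    rw [log_of h1 h2 hn.1] at h3
    refine h3.trans_le ?_
    rw [log_pow]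
    apply div_le_div_of_nonneg_left (by positivity) (by nlinarith) (by nlinarith)
  exact_mod_cast Finset.card_le_card (by convert hsub)

theorem three (x B : ℝ) (hx : 0 < x) : ∃ c : ℝ, 0 < c ∧ c ≤ 1 ∧ ∀ L : ℕ → ℕ, Lengths x B L →
    DUp (1 - c) (E3 c L)ᶜ := by
  classical
  obtain ⟨c0, hc0, X0, h⟩ := ThreePrimeFactors.result.1 x (|B| + 1) hx
  refine ⟨min c0 1, by positivity, min_le_right _ _, fun L hL => ?_⟩
  have hx' : max x 0 = x := max_eq_left hx.le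
  obtain ⟨j1, hj1⟩ := eventually_atTop.1 (len_conv x B (by rw [hx']; exact hL))
  refine ⟨max (max j1 X0) 1, fun j hj Z Y hY h1 h2 => ?_⟩
  have hjj1 : j1 ≤ j := (le_max_left _ _).trans ((le_max_left _ _).trans hj)
  have hjX : X0 ≤ j := (le_max_right _ _).trans ((le_max_left _ _).trans hj)
  have hj0 : 1 ≤ j := (le_max_right _ _).trans hj
  have hjr : (1 : ℝ) ≤ j := by exact_mod_cast hj0
  obtain ⟨g1, g2⟩ := hj1 j hjj1
  have hj2 : j < 2 ^ j := Nat.lt_two_pow_self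
  have hcast : ((2 ^ j : ℕ) : ℝ) = (2:ℝ) ^ j := by push_cast; ring
  have hX1 : (1 : ℝ) ≤ (2:ℝ) ^ j := one_le_pow₀ (by norm_num)
  have hmain := h (2 ^ j) (by omega) Z Y (L j) (by
    rw [hcast]
    exact (Real.rpow_le_rpow_of_exponent_le hX1 (by norm_num)).trans hY) (by rw [pow_succ] at h2; omega)
    g1 g2
  have hl2 : 0 < Real.log 2 ∧ Real.log 2 < 1 :=
    ⟨Real.log_pos (by norm_num), by linarith [Real.log_two_lt_d9]⟩
  have hcc : 0 ≤ min c0 1 := by positivity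
  have hsub : (Finset.Ioc Z (Z + Y)).filter (fun n => c0 * (L j : ℕ) / Real.log ((2 ^ j : ℕ) : ℝ) ≤
      (ThreePrimeFactors.N n (L j) : ℝ)) ⊆ (Finset.Ioc Z (Z + Y)).filter (fun n => n ∈ E3 (min c0 1) L) := by
    intro n hn
    rw [Finset.mem_filter] at hn ⊢
    refine ⟨hn.1, ?_⟩
    change min c0 1 * L (Nat.log 2 n) / Nat.log 2 n ≤ (ThreePrimeFactors.N n (L (Nat.log 2 n)) : ℝ)
    rw [log_of h1 h2 hn.1]
    refine le_trans ?_ hn.2
    rw [log_pow]
    have q1 : min c0 1 * (L j : ℝ) / j ≤ c0 * (L j : ℝ) / j :=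
      div_le_div_of_nonneg_right (mul_le_mul_of_nonneg_right (min_le_left _ _) (by positivity)) (by linarith)
    refine q1.trans ?_
    apply div_le_div_of_nonneg_left (by positivity) (by nlinarith) (by nlinarith)
  have h3 : (((Finset.Ioc Z (Z + Y)).filter (fun n => c0 * (L j : ℕ) / Real.log ((2 ^ j : ℕ) : ℝ) ≤
      (ThreePrimeFactors.N n (L j) : ℝ))).card : ℝ) ≤
      (((Finset.Ioc Z (Z + Y)).filter (fun n => n ∈ E3 (min c0 1) L)).card : ℝ) := by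
    exact_mod_cast Finset.card_le_card hsub
  have h4 : (((Finset.Ioc Z (Z + Y)).filter (fun n => n ∈ E3 (min c0 1) L)).card : ℝ) +
      (((Finset.Ioc Z (Z + Y)).filter (fun n => ¬ n ∈ E3 (min c0 1) L)).card : ℝ) = Y := by
    have h5 := Finset.card_filter_add_card_filter_not (s := Finset.Ioc Z (Z + Y))
      (fun n => n ∈ E3 (min c0 1) L)
    rw [Nat.card_Ioc, Nat.add_sub_cancel_left] at h5
    exact_mod_cast h5
  have h6 : min c0 1 * (Y : ℝ) ≤ c0 * Y := mul_le_mul_of_nonneg_right (min_le_left _ _) (Nat.cast_nonneg _)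
  have h7 : c0 * (Y : ℝ) ≤ (((Finset.Ioc Z (Z + Y)).filter (fun n =>
      c0 * (L j : ℕ) / Real.log ((2 ^ j : ℕ) : ℝ) ≤ (ThreePrimeFactors.N n (L j) : ℝ))).card : ℝ) := by
    convert hmain using 4
  have h8 : (((Finset.Ioc Z (Z + Y)).filter (fun n => n ∈ (E3 (min c0 1) L)ᶜ)).card : ℝ) =
      (((Finset.Ioc Z (Z + Y)).filter (fun n => ¬ n ∈ E3 (min c0 1) L)).card : ℝ) := by
    congr 1
  have h9 : (((Finset.Ioc Z (Z + Y)).filter (fun n => n ∈ (E3 (min c0 1) L)ᶜ)).card : ℝ) ≤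
      (1 - min c0 1) * Y := by
    rw [h8]
    linarith
  convert h9

end Pool.Agent.K1H50.AL
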