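import Pool.Agent.R306.LogLaw

/-!
Weighted averages, along almost every sequence `exp (a n * y + b n)`, of a bounded function with small
means in windows.
-/

set_option autoImplicit false

open MeasureTheory Filter Topology Set Real
open scoped ENNReal

namespace Pool.Agent.K1H50.AL

open Pool.Agent.R306.LogCov Pool.Agent.R306.LogAE Pool.Agent.R306.LogLaw

/-- means at most `c` in all windows `[R, R + H]`, `R ^ (15/16) ≤ H ≤ R`, up to `o(1)` -/
def UpMeans (c : ℝ) (g : ℝ → ℝ) : Prop := ∀ η : ℝ, 0 < η → ∃ R₀ : ℝ, ∀ R : ℝ, R₀ ≤ R → ∀ H : ℝ,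
  R ^ (15 / 16 : ℝ) ≤ H → H ≤ R → |∫ r in R..(R + H), g r| ≤ (c + η) * H

/-- **weighted averages along almost every sequence**, on an interval of the parameter, for functions with
small means in windows -/
theorem ae_core {g : ℝ → ℝ} (hg : Measurable g) {B : ℝ} (hB : ∀ r, |g r| ≤ B)
    (hL : PolyVar g) {a b : ℕ → ℝ} (ha : ∀ n, 1 ≤ a n) (hb : ∀ n, 0 ≤ b n)
    (hmono : Monotone fun n => a n + b n) (hinf : Tendsto (fun n => a n + b n) atTop atTop)
    {C₀ : ℝ} (hC₀ : ∀ n, a (n + 1) + b (n + 1) ≤ C₀ * (a n + b n)) {u v : ℝ} (hu : 0 < u) (huv : u ≤ v) :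
    ∀ᵐ y : ℝ, y ∈ Ioc u v → Tendsto (fun N => (∑ n ∈ Finset.range N,
      (Real.log (a (n + 1) + b (n + 1)) - Real.log (a n + b n)) * (Xf g (a n) (b n) y -
        Mv (Xf g (a n) (b n)) (Real.exp (-(min u 1 * (a n + b n) / 16))) y)) /
      ∑ n ∈ Finset.range N, (Real.log (a (n + 1) + b (n + 1)) - Real.log (a n + b n))) atTop (𝓝 0) := by
  obtain ⟨C, hC1, hCΦ⟩ := hL
  have hB0 : 0 ≤ B := (abs_nonneg _).trans (hB 0)
  set ζ : ℕ → ℝ := fun n => a n + b n with hζ
  have hζ1 : ∀ n, 1 ≤ ζ n := fun n => by rw [hζ]; dsimp only; linarith [ha n, hb n]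
  have hζ0 : ∀ n, 0 < ζ n := fun n => lt_of_lt_of_le one_pos (hζ1 n)
  set w : ℕ → ℝ := fun n => Real.log (ζ (n + 1)) - Real.log (ζ n) with hw
  have hw0 : ∀ n, 0 ≤ w n := by
    intro n
    rw [hw]; dsimp only
    have := Real.log_le_log (hζ0 n) (hmono (Nat.le_succ n))
    linarith
  have hC₀1 : 1 ≤ C₀ := by
    have h1 := hC₀ 0
    have h2 := hmono (Nat.le_succ 0)
    have h3 := hζ0 0
    by_contra hcon
    push Not at hcon
    have h4 : C₀ * (a 0 + b 0) < 1 * (a 0 + b 0) := mul_lt_mul_of_pos_right hcon h3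
    have h5 : a 0 + b 0 ≤ a (0 + 1) + b (0 + 1) := h2
    linarith
  have hwc : ∀ n, w n ≤ Real.log C₀ := by
    intro n
    rw [hw]; dsimp only
    have h1 := Real.log_le_log (hζ0 (n + 1)) (hC₀ n)
    rw [Real.log_mul (by linarith) (hζ0 n).ne'] at h1
    linarith
  have hLsum : ∀ N, ∑ n ∈ Finset.range N, w n = Real.log (ζ N) - Real.log (ζ 0) := by
    intro N
    rw [hw]
    exact Finset.sum_range_sub (fun n => Real.log (ζ n)) N
  have hLinf : Tendsto (fun N => ∑ n ∈ Finset.range N, w n) atTop atTop := by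
    simp only [hLsum]
    exact tendsto_atTop_add_const_right _ _ (Real.tendsto_log_atTop.comp hinf)
  set κ : ℝ := min u 1 with hκ
  have hκ0 : 0 < κ := lt_min hu one_pos
  have hκu : κ ≤ u := min_le_left _ _
  have hκ1 : κ ≤ 1 := min_le_right _ _
  have hzlow : ∀ n y, u ≤ y → κ * ζ n ≤ a n * y + b n := by
    intro n y hy
    rw [hζ]; dsimp only
    have h1 : a n * κ ≤ a n * y := mul_le_mul_of_nonneg_left (hκu.trans hy) (by linarith [ha n])
    have h2 : κ * b n ≤ 1 * b n := mul_le_mul_of_nonneg_right hκ1 (hb n)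
    nlinarith
  set lam : ℝ := v + 1 with hlam
  have hlam1 : 1 ≤ lam := by rw [hlam]; linarith
  have hzup : ∀ n y, y ≤ v + 1 → a n * y + b n ≤ lam * ζ n := by
    intro n y hy
    rw [hζ]; dsimp only
    have h1 : a n * y ≤ a n * lam := mul_le_mul_of_nonneg_left hy (by linarith [ha n])
    have h2 : 1 * b n ≤ lam * b n := mul_le_mul_of_nonneg_right hlam1 (hb n)
    nlinarith
  set δ : ℕ → ℝ := fun n => Real.exp (-(κ * ζ n / 16)) with hδ
  have hδ0 : ∀ n, 0 < δ n := fun n => Real.exp_pos _
  have hδ1 : ∀ n, δ n ≤ 1 := by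
    intro n
    rw [hδ]; dsimp only
    rw [Real.exp_le_one_iff]
    have := hζ0 n
    have : 0 < κ * ζ n := by positivity
    linarith
  set X : ℕ → ℝ → ℝ := fun n => Xf g (a n) (b n) with hX
  have hXm : ∀ n, Measurable (X n) := fun n => Xf_meas hg _ _
  have hXb : ∀ n y, |X n y| ≤ B := fun n y => hB _
  set D : ℕ → ℝ → ℝ := fun n y => X n y - Mv (X n) (δ n) y with hD
  have hDm : ∀ n, Measurable (D n) := fun n => (hXm n).sub (Mv_meas (hXm n) (hXb n) _)
  have hDb : ∀ n y, |D n y| ≤ 2 * B := by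
    intro n y
    rw [hD]; dsimp only
    have h1 := abs_sub (X n y) (Mv (X n) (δ n) y)
    have h2 := Mv_bound (hXb n) (hδ0 n) y
    linarith [hXb n y]
  -- correlations
  set K₂ : ℝ := C * lam + κ / 16 with hK₂
  have hK₂0 : 0 < K₂ := by positivity
  set K₁ : ℝ := B * C + 2 * B ^ 2 * (v - u) + 4 * B ^ 2 with hK₁
  have hvu : 0 ≤ v - u := by linarith
  have hK₁0 : 0 ≤ K₁ := by positivity
  have hcov : ∀ n n', |∫ y in u..v, D n y * D n' y| ≤ K₁ * Real.exp (K₂ * ζ n - κ * ζ n' / 16) := by
    intro n n'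
    set T : ℝ := Real.exp (a n * (v + 1) + b n) with hT
    have hz0 : ∀ y, u ≤ y → 0 ≤ a n * y + b n := fun y hy =>
      le_trans (by have := hζ0 n; positivity) (hzlow n y hy)
    have hT1 : 1 ≤ T := Real.one_le_exp (hz0 (v + 1) (by linarith))
    obtain ⟨Φ, hΦ1, hΦ2, hΦ3⟩ := hCΦ T hT1
    have hmem : ∀ y ∈ Icc u (v + 1), Real.exp (a n * y + b n) ∈ Icc 1 T := by
      intro y hy
      refine ⟨Real.one_le_exp (hz0 y hy.1), Real.exp_le_exp.2 ?_⟩
      have := mul_le_mul_of_nonneg_left hy.2 (show 0 ≤ a n by linarith [ha n])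
      linarith
    have hexpm : ∀ y y', y ≤ y' → Real.exp (a n * y + b n) ≤ Real.exp (a n * y' + b n) := by
      intro y y' hyy
      apply Real.exp_le_exp.2
      have := mul_le_mul_of_nonneg_left hyy (show 0 ≤ a n by linarith [ha n])
      linarith
    have h := cov (X := X n) (X' := X n') (Ψ := fun y => Φ (Real.exp (a n * y + b n))) (hXm n) (hXm n')
      (hXb n) (hXb n') huv (fun y hy y' hy' hyy => hΦ1 (hmem y hy) (hmem y' hy') (hexpm y y' hyy))
      (fun y hy t ht => hΦ3 _ (hmem y ⟨hy.1, by linarith [hy.2]⟩) _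
        (hmem (y + t) ⟨by linarith [hy.1, ht.1], by linarith [hy.2, ht.2]⟩)
        (hexpm y (y + t) (by linarith [ht.1]))) (hδ0 n) (hδ0 n') (hδ1 n')
    refine h.trans ?_
    have h1 : Φ (Real.exp (a n * (v + 1) + b n)) - Φ (Real.exp (a n * u + b n)) ≤
        C * Real.exp (C * lam * ζ n) := by
      have h2 : Φ 1 ≤ Φ (Real.exp (a n * u + b n)) :=
        hΦ1 ⟨le_rfl, hT1⟩ (hmem u ⟨le_rfl, by linarith⟩) (hmem u ⟨le_rfl, by linarith⟩).1
      have h3 : T ^ C ≤ Real.exp (C * lam * ζ n) := by
        rw [hT, ← Real.exp_mul]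
        apply Real.exp_le_exp.2
        have := mul_le_mul_of_nonneg_right (hzup n (v + 1) le_rfl) (show 0 ≤ C by linarith)
        linarith
      have h4 : C * T ^ C ≤ C * Real.exp (C * lam * ζ n) :=
        mul_le_mul_of_nonneg_left h3 (by linarith)
      rw [← hT]
      linarith
    have hE1 : Real.exp (C * lam * ζ n) ≤ Real.exp (K₂ * ζ n) := by
      apply Real.exp_le_exp.2
      rw [hK₂]
      have := hζ0 n
      have h5 : 0 ≤ κ / 16 * ζ n := by positivity
      nlinarith
    have hE2 : 1 / δ n ≤ Real.exp (K₂ * ζ n) := by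
      rw [hδ]; dsimp only
      rw [one_div, ← Real.exp_neg, neg_neg]
      apply Real.exp_le_exp.2
      rw [hK₂]
      have := hζ0 n
      have h5 : 0 ≤ C * lam * ζ n := by positivity
      nlinarith
    have hE3 : 1 ≤ Real.exp (K₂ * ζ n) := Real.one_le_exp (by have := hζ0 n; positivity)
    have h6 : B * (Φ (Real.exp (a n * (v + 1) + b n)) - Φ (Real.exp (a n * u + b n))) +
        2 * B ^ 2 * (v - u) / δ n + 4 * B ^ 2 ≤ K₁ * Real.exp (K₂ * ζ n) := by
      have q1 : B * (Φ (Real.exp (a n * (v + 1) + b n)) - Φ (Real.exp (a n * u + b n))) ≤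
          B * C * Real.exp (K₂ * ζ n) := by
        calc _ ≤ B * (C * Real.exp (C * lam * ζ n)) := mul_le_mul_of_nonneg_left h1 hB0
          _ ≤ B * (C * Real.exp (K₂ * ζ n)) := by
              apply mul_le_mul_of_nonneg_left _ hB0
              exact mul_le_mul_of_nonneg_left hE1 (by linarith)
          _ = _ := by ring
      have q2 : 2 * B ^ 2 * (v - u) / δ n ≤ 2 * B ^ 2 * (v - u) * Real.exp (K₂ * ζ n) := by
        rw [div_eq_mul_one_div]
        exact mul_le_mul_of_nonneg_left hE2 (by positivity)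
      have q3 : 4 * B ^ 2 ≤ 4 * B ^ 2 * Real.exp (K₂ * ζ n) :=
        le_mul_of_one_le_right (by positivity) hE3
      rw [hK₁]
      nlinarith
    calc _ ≤ δ n' * (K₁ * Real.exp (K₂ * ζ n)) := mul_le_mul_of_nonneg_left h6 (hδ0 n').le
      _ = K₁ * (Real.exp (K₂ * ζ n) * Real.exp (-(κ * ζ n' / 16))) := by rw [hδ]; ring
      _ = K₁ * Real.exp (K₂ * ζ n - κ * ζ n' / 16) := by
          rw [← Real.exp_add]; congr 2
  have hcov0 : ∀ n n', |∫ y in u..v, D n y * D n' y| ≤ 4 * B ^ 2 * (v - u) := by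
    intro n n'
    have h := intervalIntegral.norm_integral_le_of_norm_le_const (a := u) (b := v)
      (f := fun y => D n y * D n' y) (C := 4 * B ^ 2) (fun y _ => by
        rw [Real.norm_eq_abs, abs_mul]
        calc |D n y| * |D n' y| ≤ (2 * B) * (2 * B) :=
              mul_le_mul (hDb n y) (hDb n' y) (abs_nonneg _) (by linarith)
          _ = 4 * B ^ 2 := by ring)
    rw [Real.norm_eq_abs, abs_of_nonneg hvu] at h
    exact h
  set Q : ℝ := 32 * K₂ / κ with hQ
  have hQ1 : 1 ≤ Q := by
    rw [hQ, le_div_iff₀ hκ0, hK₂]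
    have : 1 ≤ C * lam := one_le_mul_of_one_le_of_one_le hC1 hlam1
    linarith
  -- the majorant
  obtain ⟨M₃, hM₃⟩ : ∃ M₃ : ℝ, ∀ x : ℝ, 1 ≤ x → Real.exp (-(κ * x / 32)) * Real.log (C₀ * x) ≤ M₃ := by
    refine ⟨Real.log C₀ + 32 / κ, fun x hx => ?_⟩
    have hx0 : 0 < x := by linarith
    rw [Real.log_mul (by linarith) hx0.ne', mul_add]
    have h1 : Real.exp (-(κ * x / 32)) ≤ 1 := by
      rw [Real.exp_le_one_iff]
      have : 0 < κ * x := by positivity
      linarith
    have h2 : Real.exp (-(κ * x / 32)) * Real.log C₀ ≤ 1 * Real.log C₀ :=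
      mul_le_mul_of_nonneg_right h1 (Real.log_nonneg hC₀1)
    have h3 : Real.exp (-(κ * x / 32)) * Real.log x ≤ 32 / κ := by
      have h4 : Real.log x ≤ x := (Real.log_le_sub_one_of_pos hx0).trans (by linarith)
      have h5 : κ * x / 32 ≤ Real.exp (κ * x / 32) := by linarith [Real.add_one_le_exp (κ * x / 32)]
      have h6 : x ≤ 32 / κ * Real.exp (κ * x / 32) := by
        have : x = 32 / κ * (κ * x / 32) := by field_simp
        calc x = 32 / κ * (κ * x / 32) := this
          _ ≤ _ := mul_le_mul_of_nonneg_left h5 (by positivity)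
      calc Real.exp (-(κ * x / 32)) * Real.log x ≤ Real.exp (-(κ * x / 32)) * (32 / κ * Real.exp (κ * x / 32)) :=
            mul_le_mul_of_nonneg_left (h4.trans h6) (Real.exp_pos _).le
        _ = 32 / κ * (Real.exp (-(κ * x / 32)) * Real.exp (κ * x / 32)) := by ring
        _ = 32 / κ := by rw [← Real.exp_add]; simp
    linarith
  have hM₃0 : 0 ≤ M₃ := by
    have h1 := hM₃ 1 le_rfl
    refine le_trans ?_ h1
    exact mul_nonneg (Real.exp_pos _).le (Real.log_nonneg (by linarith))
  set f : ℕ → ℕ → ℝ := fun n n' => if n ≤ n' then (if ζ n' < Q * ζ n then 4 * B ^ 2 * (v - u) else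
    K₁ * Real.exp (-(κ * ζ n' / 32))) else 0 with hf
  have hf0 : ∀ n n', 0 ≤ f n n' := by
    intro n n'
    rw [hf]; dsimp only
    split_ifs <;> positivity
  have hcovf : ∀ n n', |∫ y in u..v, D n y * D n' y| ≤ f n n' + f n' n := by
    have key : ∀ n n', n ≤ n' → |∫ y in u..v, D n y * D n' y| ≤ f n n' := by
      intro n n' hnn
      rw [hf]; dsimp only
      rw [if_pos hnn]
      split_ifs with h1
      · exact hcov0 n n'
      · push Not at h1
        refine (hcov n n').trans ?_
        apply mul_le_mul_of_nonneg_left _ hK₁0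
        apply Real.exp_le_exp.2
        have h2 : K₂ * ζ n ≤ κ * ζ n' / 32 := by
          rw [hQ, div_mul_eq_mul_div, div_le_iff₀ hκ0] at h1
          linarith
        linarith
    intro n n'
    rcases le_total n n' with h | h
    · exact (key n n' h).trans (by linarith [hf0 n' n])
    · have e : ∫ y in u..v, D n y * D n' y = ∫ y in u..v, D n' y * D n y := by
        congr 1; funext y; ring
      rw [e]
      exact (key n' n h).trans (by linarith [hf0 n n'])
  set K₄ : ℝ := 4 * B ^ 2 * (v - u) * (Real.log C₀ + Real.log Q) + K₁ * M₃ with hK₄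
  have hrow : ∀ n' N, ∑ n ∈ Finset.range N, w n * f n n' ≤ K₄ := by
    intro n' N
    classical
    have h1 : ∑ n ∈ Finset.range N, w n * f n n' ≤
        ∑ n ∈ (Finset.range (n' + 1)).filter (fun n => ζ n' < Q * ζ n), w n * (4 * B ^ 2 * (v - u)) +
        ∑ n ∈ Finset.range (n' + 1), w n * (K₁ * Real.exp (-(κ * ζ n' / 32))) := by
      rw [Finset.sum_filter]
      have h2 : ∑ n ∈ Finset.range N, w n * f n n' ≤ ∑ n ∈ Finset.range (n' + 1), w n * f n n' := by
        calc ∑ n ∈ Finset.range N, w n * f n n'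
            ≤ ∑ n ∈ Finset.range (max N (n' + 1)), w n * f n n' :=
              Finset.sum_le_sum_of_subset_of_nonneg (Finset.range_mono (le_max_left _ _))
                fun n _ _ => mul_nonneg (hw0 n) (hf0 n n')
          _ = ∑ n ∈ Finset.range (n' + 1), w n * f n n' := by
              symm
              apply Finset.sum_subset (Finset.range_mono (le_max_right _ _))
              intro n _ hn
              rw [Finset.mem_range] at hn
              have : f n n' = 0 := by
                rw [hf]; dsimp only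
                rw [if_neg (by omega)]
              rw [this, mul_zero]
      refine h2.trans ?_
      rw [← Finset.sum_add_distrib]
      apply Finset.sum_le_sum
      intro n hn
      rw [Finset.mem_range] at hn
      rw [hf]; dsimp only
      rw [if_pos (by omega)]
      have q1 : 0 ≤ w n * (K₁ * Real.exp (-(κ * ζ n' / 32))) :=
        mul_nonneg (hw0 n) (by positivity)
      split_ifs with h3
      · linarith
      · linarith
    refine h1.trans ?_
    have h2 : ∑ n ∈ (Finset.range (n' + 1)).filter (fun n => ζ n' < Q * ζ n), w n ≤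
        Real.log C₀ + Real.log Q := by
      by_cases hne : ((Finset.range (n' + 1)).filter (fun n => ζ n' < Q * ζ n)).Nonempty
      swap
      · rw [Finset.not_nonempty_iff_eq_empty] at hne
        rw [hne, Finset.sum_empty]
        exact add_nonneg (Real.log_nonneg hC₀1) (Real.log_nonneg hQ1)
      set n₀ := ((Finset.range (n' + 1)).filter (fun n => ζ n' < Q * ζ n)).min' hne with hn₀
      have hn₀m := Finset.min'_mem _ hne
      rw [← hn₀, Finset.mem_filter, Finset.mem_range] at hn₀m
      have hsub : (Finset.range (n' + 1)).filter (fun n => ζ n' < Q * ζ n) ⊆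
          Finset.Ico n₀ (n' + 1) := by
        intro n hn
        have h4 := Finset.min'_le _ n hn
        rw [Finset.mem_filter, Finset.mem_range] at hn
        exact Finset.mem_Ico.2 ⟨h4, hn.1⟩
      refine (Finset.sum_le_sum_of_subset_of_nonneg hsub fun n _ _ => hw0 n).trans ?_
      rw [Finset.sum_Ico_eq_sub _ (by omega), hLsum, hLsum]
      have h5 := Real.log_le_log (hζ0 (n' + 1)) (hC₀ n')
      rw [Real.log_mul (by linarith) (hζ0 n').ne'] at h5
      have h6 := Real.log_le_log (hζ0 n') hn₀m.2.le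
      rw [Real.log_mul (by linarith) (hζ0 n₀).ne'] at h6
      linarith
    have h3 : ∑ n ∈ Finset.range (n' + 1), w n ≤ Real.log (C₀ * ζ n') := by
      rw [hLsum]
      have h5 := Real.log_le_log (hζ0 (n' + 1)) (hC₀ n')
      have h6 := Real.log_nonneg (hζ1 0)
      linarith
    rw [← Finset.sum_mul, ← Finset.sum_mul, hK₄]
    have h4 : (∑ n ∈ (Finset.range (n' + 1)).filter (fun n => ζ n' < Q * ζ n), w n) *
        (4 * B ^ 2 * (v - u)) ≤ (Real.log C₀ + Real.log Q) * (4 * B ^ 2 * (v - u)) :=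
      mul_le_mul_of_nonneg_right h2 (by positivity)
    have h5 : (∑ n ∈ Finset.range (n' + 1), w n) * (K₁ * Real.exp (-(κ * ζ n' / 32))) ≤ K₁ * M₃ := by
      calc _ ≤ Real.log (C₀ * ζ n') * (K₁ * Real.exp (-(κ * ζ n' / 32))) :=
            mul_le_mul_of_nonneg_right h3 (by positivity)
        _ = K₁ * (Real.exp (-(κ * ζ n' / 32)) * Real.log (C₀ * ζ n')) := by ring
        _ ≤ K₁ * M₃ := mul_le_mul_of_nonneg_left (hM₃ _ (hζ1 n')) hK₁0
    linarith
  have hK₄0 : 0 ≤ K₄ := by
    rw [hK₄]
    have := add_nonneg (Real.log_nonneg hC₀1) (Real.log_nonneg hQ1)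
    positivity
  -- the variance
  have hvar : ∀ N, ∫ y in u..v, (∑ n ∈ Finset.range N, w n * D n y) ^ 2 ≤
      (2 * K₄) * ((∑ n ∈ Finset.range N, w n) + 1) := by
    intro N
    have hprodi : ∀ n n', IntervalIntegrable (fun y => D n y * D n' y) volume u v := by
      intro n n'
      refine bint ((hDm n).mul (hDm n')) (B := 4 * B ^ 2) (fun y => ?_) u v
      change |D n y * D n' y| ≤ _
      rw [abs_mul]
      calc |D n y| * |D n' y| ≤ (2 * B) * (2 * B) :=
            mul_le_mul (hDb n y) (hDb n' y) (abs_nonneg _) (by linarith)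
        _ = 4 * B ^ 2 := by ring
    have e1 : ∫ y in u..v, (∑ n ∈ Finset.range N, w n * D n y) ^ 2 =
        ∑ n ∈ Finset.range N, ∑ n' ∈ Finset.range N, w n * w n' * ∫ y in u..v, D n y * D n' y := by
      have e2 : ∀ y, (∑ n ∈ Finset.range N, w n * D n y) ^ 2 =
          ∑ n ∈ Finset.range N, ∑ n' ∈ Finset.range N, w n * w n' * (D n y * D n' y) := by
        intro y
        rw [sq, Finset.sum_mul_sum]
        refine Finset.sum_congr rfl fun n _ => Finset.sum_congr rfl fun n' _ => ?_
        ring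
      simp only [e2]
      rw [intervalIntegral.integral_finset_sum]
      · refine Finset.sum_congr rfl fun n _ => ?_
        rw [intervalIntegral.integral_finset_sum]
        · refine Finset.sum_congr rfl fun n' _ => ?_
          rw [intervalIntegral.integral_const_mul]
        · intro n' _
          exact (hprodi n n').const_mul _
      · intro n _
        have h2 := IntervalIntegrable.sum (Finset.range N) (f := fun n' y => w n * w n' * (D n y * D n' y))
          (fun n' _ => (hprodi n n').const_mul _)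
        refine h2.congr ?_
        intro y _
        simp
    rw [e1]
    calc ∑ n ∈ Finset.range N, ∑ n' ∈ Finset.range N, w n * w n' * ∫ y in u..v, D n y * D n' y
        ≤ ∑ n ∈ Finset.range N, ∑ n' ∈ Finset.range N, w n * w n' * (f n n' + f n' n) := by
          apply Finset.sum_le_sum
          intro n _
          apply Finset.sum_le_sum
          intro n' _
          exact mul_le_mul_of_nonneg_left ((le_abs_self _).trans (hcovf n n'))
            (mul_nonneg (hw0 n) (hw0 n'))
      _ = (∑ n' ∈ Finset.range N, w n' * ∑ n ∈ Finset.range N, w n * f n n') +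
          ∑ n ∈ Finset.range N, w n * ∑ n' ∈ Finset.range N, w n' * f n' n := by
          have e3 : ∑ n ∈ Finset.range N, ∑ n' ∈ Finset.range N, w n * w n' * (f n n' + f n' n) =
              (∑ n ∈ Finset.range N, ∑ n' ∈ Finset.range N, w n * w n' * f n n') +
              ∑ n ∈ Finset.range N, ∑ n' ∈ Finset.range N, w n * w n' * f n' n := by
            rw [← Finset.sum_add_distrib]
            refine Finset.sum_congr rfl fun n _ => ?_
            rw [← Finset.sum_add_distrib]
            refine Finset.sum_congr rfl fun n' _ => ?_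
            ring
          rw [e3, Finset.sum_comm]
          congr 1
          · refine Finset.sum_congr rfl fun n _ => ?_
            rw [Finset.mul_sum]
            refine Finset.sum_congr rfl fun n' _ => ?_
            ring
          · refine Finset.sum_congr rfl fun n _ => ?_
            rw [Finset.mul_sum]
            refine Finset.sum_congr rfl fun n' _ => ?_
            ring
      _ ≤ (∑ n' ∈ Finset.range N, w n' * K₄) + ∑ n ∈ Finset.range N, w n * K₄ := by
          apply add_le_add
          · apply Finset.sum_le_sum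
            intro n' _
            exact mul_le_mul_of_nonneg_left (hrow n' N) (hw0 n')
          · apply Finset.sum_le_sum
            intro n _
            exact mul_le_mul_of_nonneg_left (hrow n N) (hw0 n)
      _ = (2 * K₄) * (∑ n ∈ Finset.range N, w n) := by
          rw [← Finset.sum_mul]; ring
      _ ≤ _ := by
          apply mul_le_mul_of_nonneg_left (by linarith) (by positivity)
  exact ae_avg hDm hDb hw0 hwc hLinf huv hvar

/-- the averages over small windows are close to means over windows of the values -/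
lemma win_ev {g : ℝ → ℝ} {a b : ℕ → ℝ} (ha : ∀ n, 1 ≤ a n) (hb : ∀ n, 0 ≤ b n)
    (hinf : Tendsto (fun n => a n + b n) atTop atTop) {u : ℝ} (hu : 0 < u) (R₀ τ : ℝ) (hτ : 0 < τ) :
    ∀ᶠ n in atTop, ∀ y, u ≤ y →
      a n * Real.exp (-(min u 1 * (a n + b n) / 16)) ≤ min (1 / 2) τ ∧ R₀ ≤ Real.exp (a n * y + b n) ∧
      (Real.exp (a n * y + b n)) ^ (15 / 16 : ℝ) ≤
        (Real.exp (a n * Real.exp (-(min u 1 * (a n + b n) / 16))) - 1) * Real.exp (a n * y + b n) ∧
      (Real.exp (a n * Real.exp (-(min u 1 * (a n + b n) / 16))) - 1) * Real.exp (a n * y + b n) ≤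
        Real.exp (a n * y + b n) := by
  set ζ : ℕ → ℝ := fun n => a n + b n with hζ
  have hζ1 : ∀ n, 1 ≤ ζ n := fun n => by rw [hζ]; dsimp only; linarith [ha n, hb n]
  have hζ0 : ∀ n, 0 < ζ n := fun n => lt_of_lt_of_le one_pos (hζ1 n)
  set κ : ℝ := min u 1 with hκ
  have hκ0 : 0 < κ := lt_min hu one_pos
  have hκu : κ ≤ u := min_le_left _ _
  have hκ1 : κ ≤ 1 := min_le_right _ _
  have hzlow : ∀ n y, u ≤ y → κ * ζ n ≤ a n * y + b n := by
    intro n y hy
    rw [hζ]; dsimp only
    have h1 : a n * κ ≤ a n * y := mul_le_mul_of_nonneg_left (hκu.trans hy) (by linarith [ha n])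
    have h2 : κ * b n ≤ 1 * b n := mul_le_mul_of_nonneg_right hκ1 (hb n)
    nlinarith
  set δ : ℕ → ℝ := fun n => Real.exp (-(κ * ζ n / 16)) with hδ
  have hδ0 : ∀ n, 0 < δ n := fun n => Real.exp_pos _
  have h1 : Tendsto (fun x : ℝ => x * Real.exp (-(κ / 16) * x)) atTop (𝓝 0) := by
    have h2 := Real.tendsto_pow_mul_exp_neg_atTop_nhds_zero 1
    have h3 : Tendsto (fun x : ℝ => (κ / 16) * x) atTop atTop :=
      tendsto_id.const_mul_atTop (by positivity)
    have h4 := (h2.comp h3).const_mul (16 / κ)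
    rw [mul_zero] at h4
    refine h4.congr fun x => ?_
    simp only [Function.comp, pow_one]
    rw [neg_mul]
    field_simp
  have h2 : Tendsto (fun n => ζ n * Real.exp (-(κ / 16) * ζ n)) atTop (𝓝 0) := h1.comp hinf
  have hη2 : 0 < min (1 / 2) τ := by positivity
  filter_upwards [h2.eventually (gt_mem_nhds hη2), (hinf.const_mul_atTop hκ0).eventually_ge_atTop
    (Real.log (max R₀ 1))] with n hn1 hn2 y hy
  have haδ : a n * δ n ≤ ζ n * Real.exp (-(κ / 16) * ζ n) := by
    rw [hδ]; dsimp only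
    have e : -(κ * ζ n / 16) = -(κ / 16) * ζ n := by ring
    rw [e]
    apply mul_le_mul_of_nonneg_right _ (Real.exp_pos _).le
    rw [hζ]; dsimp only
    linarith [hb n]
  have haδm : a n * δ n ≤ min (1 / 2) τ := haδ.trans hn1.le
  have haδ1 : a n * δ n ≤ 1 / 2 := haδm.trans (min_le_left _ _)
  have haδ0 : 0 < a n * δ n := mul_pos (by linarith [ha n]) (hδ0 n)
  obtain ⟨R, hR⟩ : ∃ R, R = Real.exp (a n * y + b n) := ⟨_, rfl⟩
  have hRpos : 0 < R := by rw [hR]; exact Real.exp_pos _
  have hRR : R₀ ≤ R := by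
    have h3 : Real.log (max R₀ 1) ≤ a n * y + b n := hn2.trans (hzlow n y hy)
    rw [Real.log_le_iff_le_exp (lt_of_lt_of_le one_pos (le_max_right _ _)), ← hR] at h3
    exact (le_max_left _ _).trans h3
  have hH1 : R ^ (15 / 16 : ℝ) ≤ (Real.exp (a n * δ n) - 1) * R := by
    have e1 : R ^ (15 / 16 : ℝ) = R ^ (-(1 / 16) : ℝ) * R := by
      rw [← Real.rpow_add_one hRpos.ne']; norm_num
    rw [e1]
    apply mul_le_mul_of_nonneg_right _ hRpos.le
    have h3 : R ^ (-(1 / 16) : ℝ) ≤ δ n := by
      rw [hR, ← Real.exp_mul, hδ]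
      apply Real.exp_le_exp.2
      have := hzlow n y hy
      linarith
    have h4 : δ n ≤ a n * δ n := le_mul_of_one_le_left (hδ0 n).le (ha n)
    linarith [Real.add_one_le_exp (a n * δ n)]
  have hH2 : (Real.exp (a n * δ n) - 1) * R ≤ R := by
    have h3 : Real.exp (a n * δ n) - 1 ≤ 1 := by
      have h5 := Real.exp_bound' haδ0.le (by linarith) (n := 1) one_pos
      simp at h5
      linarith
    calc _ ≤ 1 * R := mul_le_mul_of_nonneg_right h3 hRpos.le
      _ = R := one_mul _
  rw [← hR]
  exact ⟨haδm, hRR, hH1, hH2⟩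

end Pool.Agent.K1H50.AL
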