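import Pool.Agent.K1H50.AL.Law

/-!
Upper and lower bounds for weighted averages, along almost every sequence `exp (a n * y + b n)`, of a function
with values between zero and one.
-/

set_option autoImplicit false

open MeasureTheory Filter Topology Set Real
open scoped ENNReal

namespace Pool.Agent.K1H50.AL

open Pool.Agent.R306.LogCov Pool.Agent.R306.LogAE Pool.Agent.R306.LogLaw

/-- the average over a window of the parameter and over the window of the values -/
lemma mean_eq {g : ℝ → ℝ} (hg : Measurable g) {B : ℝ} (hB : ∀ r, |g r| ≤ B) {a b y δ : ℝ}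
    (ha : 1 ≤ a) (hδ : 0 < δ) (haδ : a * δ ≤ 1 / 2) :
    |Mv (Xf g a b) δ y - (∫ r in (Real.exp (a * y + b))..(Real.exp (a * y + b) + (Real.exp (a * δ) - 1) *
      Real.exp (a * y + b)), g r) / (a * δ * Real.exp (a * y + b))| ≤ 4 * B * (a * δ) := by
  have ha0 : 0 < a := by linarith
  have hB0 : 0 ≤ B := (abs_nonneg _).trans (hB 0)
  obtain ⟨R, hR⟩ : ∃ R : ℝ, R = Real.exp (a * y + b) := ⟨_, rfl⟩
  have hR0 : 0 < R := by rw [hR]; exact Real.exp_pos _
  obtain ⟨h, hh⟩ : ∃ h : ℝ, h = Real.exp (a * δ) - 1 := ⟨_, rfl⟩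
  have haδ0 : 0 < a * δ := by positivity
  have hh0 : 0 < h := by
    rw [hh]; linarith [Real.add_one_lt_exp haδ0.ne']
  have hh1 : h ≤ 2 * (a * δ) := by
    rw [hh]
    have h1 := Real.exp_bound' haδ0.le (by linarith) (n := 1) one_pos
    simp at h1
    nlinarith
  have hh2 : h ≤ 1 := by linarith
  rw [← hR, ← hh]
  -- change of variables
  have hcv : ∫ s in y..(y + δ), Xf g a b s = (∫ r in R..(R + h * R), g r / r) / a := by
    have hRh : R + h * R = Real.exp (a * (y + δ) + b) := by
      rw [hh, hR]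
      have : a * (y + δ) + b = (a * y + b) + a * δ := by ring
      rw [this, Real.exp_add (a * y + b) (a * δ)]; ring
    have himg : (fun s => Real.exp (a * s + b)) '' (Ioc y (y + δ)) = Ioc R (R + h * R) := by
      ext x
      constructor
      · rintro ⟨s, hs, rfl⟩
        constructor
        · rw [hR]; apply Real.exp_lt_exp.2; nlinarith [hs.1]
        · rw [hRh]; apply Real.exp_le_exp.2; nlinarith [hs.2]
      · rintro ⟨h1, h2⟩
        have hx0 : 0 < x := hR0.trans h1
        refine ⟨(Real.log x - b) / a, ⟨?_, ?_⟩, ?_⟩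
        · rw [lt_div_iff₀ ha0]
          have := (Real.lt_log_iff_exp_lt hx0).2 (by rw [hR] at h1; exact h1)
          linarith
        · rw [div_le_iff₀ ha0]
          have := (Real.log_le_iff_le_exp hx0).2 (by rw [hRh] at h2; exact h2)
          linarith
        · dsimp only
          rw [mul_div_cancel₀ _ ha0.ne', sub_add_cancel, Real.exp_log hx0]
    have hder : ∀ s ∈ Ioc y (y + δ), HasDerivWithinAt (fun s => Real.exp (a * s + b))
        (a * Real.exp (a * s + b)) (Ioc y (y + δ)) s := by
      intro s _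
      have h1 : HasDerivAt (fun s => a * s + b) a s := by
        simpa using ((hasDerivAt_id s).const_mul a).add_const b
      have h2 := h1.exp
      rw [mul_comm] at h2
      exact h2.hasDerivWithinAt
    have hinj : InjOn (fun s => Real.exp (a * s + b)) (Ioc y (y + δ)) := by
      intro s _ t _ hst
      have h1 := Real.exp_injective hst
      have h2 : a * s = a * t := by linarith
      exact mul_left_cancel₀ ha0.ne' h2
    have h1 := MeasureTheory.integral_image_eq_integral_abs_deriv_smul measurableSet_Ioc hder hinj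
      (fun r => g r / r)
    rw [himg] at h1
    rw [intervalIntegral.integral_of_le (by linarith), intervalIntegral.integral_of_le (by nlinarith), h1,
      ← integral_div]
    congr 1
    funext s
    have hp := Real.exp_pos (a * s + b)
    rw [smul_eq_mul, abs_of_pos (by positivity)]
    unfold Xf
    field_simp
  have hgi : ∀ p q, IntervalIntegrable g volume p q := fun p q => bint hg hB p q
  have hRR : R ≤ R + h * R := by nlinarith
  have i1 : IntervalIntegrable (fun r => g r / r) volume R (R + h * R) := by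
    rw [intervalIntegrable_iff_integrableOn_Ioc_of_le hRR]
    refine Integrable.of_bound (hg.div measurable_id).aestronglyMeasurable (B / R) ?_
    rw [ae_restrict_iff' measurableSet_Ioc]
    refine Eventually.of_forall fun r hr => ?_
    have hr0 : 0 < r := hR0.trans hr.1
    rw [Real.norm_eq_abs]
    change |g r / r| ≤ B / R
    rw [abs_div, abs_of_pos hr0]
    calc |g r| / r ≤ B / r := div_le_div_of_nonneg_right (hB r) hr0.le
      _ ≤ B / R := div_le_div_of_nonneg_left hB0 hR0 hr.1.le
  have h2 : |(∫ r in R..(R + h * R), g r / r) - (∫ r in R..(R + h * R), g r) / R| ≤ B * h ^ 2 := by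
    have e1 : (∫ r in R..(R + h * R), g r / r) - (∫ r in R..(R + h * R), g r) / R =
        ∫ r in R..(R + h * R), (g r / r - g r / R) := by
      rw [intervalIntegral.integral_sub i1 ((hgi _ _).div_const R), intervalIntegral.integral_div]
    have h3 : |∫ r in R..(R + h * R), (g r / r - g r / R)| ≤ (B * h / R) * (h * R) := by
      have h4 := intervalIntegral.norm_integral_le_of_norm_le_const (a := R) (b := R + h * R)
        (f := fun r => g r / r - g r / R) (C := B * h / R) (fun r hr => by
          rw [uIoc_of_le hRR] at hr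
          have hr0 : 0 < r := hR0.trans hr.1
          rw [Real.norm_eq_abs]
          have e2 : g r / r - g r / R = g r * ((R - r) / (r * R)) := by field_simp
          have e3 : |R - r| = r - R := by rw [abs_sub_comm, abs_of_nonneg (by linarith [hr.1])]
          rw [e2, abs_mul, abs_div, abs_of_pos (by positivity : 0 < r * R), e3]
          calc |g r| * ((r - R) / (r * R)) ≤ B * ((h * R) / (R * R)) := by
                apply mul_le_mul (hB r) _ (div_nonneg (by linarith [hr.1]) (by positivity)) hB0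
                apply div_le_div₀ (by positivity) (by linarith [hr.2]) (by positivity)
                exact mul_le_mul_of_nonneg_right hr.1.le hR0.le
            _ = B * h / R := by field_simp)
      have e4 : |R + h * R - R| = h * R := by
        rw [add_sub_cancel_left, abs_of_nonneg (by positivity)]
      rw [Real.norm_eq_abs, e4] at h4
      exact h4
    rw [e1]
    have h6 : (B * h / R) * (h * R) = B * h ^ 2 := by field_simp
    rw [h6] at h3
    exact h3
  unfold Mv
  have e5 : (∫ s in y..(y + δ), Xf g a b s) / δ - (∫ r in R..(R + h * R), g r) / (a * δ * R) =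
      ((∫ r in R..(R + h * R), g r / r) - (∫ r in R..(R + h * R), g r) / R) / (a * δ) := by
    rw [hcv]
    field_simp
  rw [e5, abs_div, abs_of_pos haδ0, div_le_iff₀ haδ0]
  refine h2.trans ?_
  have q2 : B * h ^ 2 ≤ B * (2 * (a * δ)) ^ 2 :=
    mul_le_mul_of_nonneg_left (pow_le_pow_left₀ hh0.le hh1 2) hB0
  nlinarith

/-- means at most `c` in the windows, up to `o(1)` -/
def UpM (c : ℝ) (g : ℝ → ℝ) : Prop := ∀ η : ℝ, 0 < η → ∃ R₀ : ℝ, ∀ R : ℝ, R₀ ≤ R → ∀ H : ℝ,
  R ^ (15 / 16 : ℝ) ≤ H → H ≤ R → ∫ r in R..(R + H), g r ≤ (c + η) * H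

/-- means at least `c` in the windows, up to `o(1)` -/
def LowM (c : ℝ) (g : ℝ → ℝ) : Prop := ∀ η : ℝ, 0 < η → ∃ R₀ : ℝ, ∀ R : ℝ, R₀ ≤ R → ∀ H : ℝ,
  R ^ (15 / 16 : ℝ) ≤ H → H ≤ R → (c - η) * H ≤ ∫ r in R..(R + H), g r

lemma ces {w f : ℕ → ℝ} (hw0 : ∀ n, 0 ≤ w n)
    (hW : Tendsto (fun N => ∑ n ∈ Finset.range N, w n) atTop atTop) (hf0 : ∀ n, 0 ≤ f n)
    (hf : ∀ η : ℝ, 0 < η → ∀ᶠ n in atTop, f n ≤ η) :
    Tendsto (fun N => (∑ n ∈ Finset.range N, w n * f n) / ∑ n ∈ Finset.range N, w n) atTop (𝓝 0) := by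
  have hlo : (fun n => w n * f n) =o[atTop] w := by
    rw [Asymptotics.isLittleO_iff]
    intro η' hη'
    filter_upwards [hf η' hη'] with n hn
    rw [Real.norm_eq_abs, Real.norm_eq_abs, abs_mul, mul_comm, abs_of_nonneg (hf0 n)]
    exact mul_le_mul_of_nonneg_right hn (abs_nonneg _)
  have h3 := hlo.sum_range hw0 hW
  exact h3.tendsto_div_nhds_zero

/-- **weighted averages along almost every sequence**: bounds from the means in windows -/
theorem ae_two {g : ℝ → ℝ} (hg : Measurable g) (hg0 : ∀ r, 0 ≤ g r) (hg1 : ∀ r, g r ≤ 1)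
    (hL : PolyVar g) {a b : ℕ → ℝ} (ha : ∀ n, 1 ≤ a n) (hb : ∀ n, 0 ≤ b n)
    (hmono : Monotone fun n => a n + b n) (hinf : Tendsto (fun n => a n + b n) atTop atTop)
    {C₀ : ℝ} (hC₀ : ∀ n, a (n + 1) + b (n + 1) ≤ C₀ * (a n + b n)) {u v : ℝ} (hu : 0 < u) (huv : u ≤ v) :
    ∀ᵐ y : ℝ, y ∈ Ioc u v →
      (∀ c : ℝ, 0 ≤ c → UpM c g → ∀ η : ℝ, 0 < η → ∀ᶠ N in atTop, ∑ n ∈ Finset.range N,
        (Real.log (a (n + 1) + b (n + 1)) - Real.log (a n + b n)) * Xf g (a n) (b n) y ≤
        (c + η) * ∑ n ∈ Finset.range N, (Real.log (a (n + 1) + b (n + 1)) - Real.log (a n + b n))) ∧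
      (∀ c : ℝ, LowM c g → ∀ η : ℝ, 0 < η → ∀ᶠ N in atTop,
        (c - η) * ∑ n ∈ Finset.range N, (Real.log (a (n + 1) + b (n + 1)) - Real.log (a n + b n)) ≤
        ∑ n ∈ Finset.range N,
        (Real.log (a (n + 1) + b (n + 1)) - Real.log (a n + b n)) * Xf g (a n) (b n) y) := by
  have hgB : ∀ r, |g r| ≤ 1 := fun r => by rw [abs_of_nonneg (hg0 r)]; exact hg1 r
  have hcore := ae_core hg hgB hL ha hb hmono hinf hC₀ hu huv
  set w : ℕ → ℝ := fun n => Real.log (a (n + 1) + b (n + 1)) - Real.log (a n + b n) with hw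
  have hz1 : ∀ n, 1 ≤ a n + b n := fun n => by linarith [ha n, hb n]
  have hw0 : ∀ n, 0 ≤ w n := by
    intro n
    rw [hw]; dsimp only
    have := Real.log_le_log (by linarith [hz1 n]) (hmono (Nat.le_succ n))
    linarith
  have hLsum : ∀ N, ∑ n ∈ Finset.range N, w n = Real.log (a N + b N) - Real.log (a 0 + b 0) := by
    intro N
    rw [hw]
    exact Finset.sum_range_sub (fun n => Real.log (a n + b n)) N
  have hLinf : Tendsto (fun N => ∑ n ∈ Finset.range N, w n) atTop atTop := by
    simp only [hLsum]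
    exact tendsto_atTop_add_const_right _ _ (Real.tendsto_log_atTop.comp hinf)
  set δ : ℕ → ℝ := fun n => Real.exp (-(min u 1 * (a n + b n) / 16)) with hδ
  have hδ0 : ∀ n, 0 < δ n := fun n => Real.exp_pos _
  have hup : ∀ c : ℝ, 0 ≤ c → UpM c g → ∀ η : ℝ, 0 < η → ∀ᶠ n in atTop, ∀ y, u ≤ y →
      Mv (Xf g (a n) (b n)) (δ n) y ≤ c + η := by
    intro c hc hU η hη
    obtain ⟨R₀, hR₀⟩ := hU (η / 2) (by linarith)
    filter_upwards [win_ev (g := g) ha hb hinf hu R₀ (η / (2 * (c + η + 4))) (by positivity)] with n hn y hy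
    obtain ⟨q1, q2, q3, q4⟩ := hn y hy
    have haδ1 : a n * δ n ≤ 1 / 2 := q1.trans (min_le_left _ _)
    have haδ2 : a n * δ n ≤ η / (2 * (c + η + 4)) := q1.trans (min_le_right _ _)
    have haδ0 : 0 < a n * δ n := mul_pos (by linarith [ha n]) (hδ0 n)
    have h1 := mean_eq (b := b n) (y := y) hg hgB (ha n) (hδ0 n) haδ1
    have h2 := hR₀ _ q2 _ q3 q4
    have hRp := Real.exp_pos (a n * y + b n)
    have h3 : Real.exp (a n * δ n) - 1 ≤ a n * δ n * (1 + a n * δ n) := by
      have h5 := Real.exp_bound' haδ0.le (by linarith) (n := 2) two_pos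
      simp [Finset.sum_range_succ] at h5
      nlinarith [sq_nonneg (a n * δ n)]
    have h4 : (∫ r in (Real.exp (a n * y + b n))..(Real.exp (a n * y + b n) +
        (Real.exp (a n * δ n) - 1) * Real.exp (a n * y + b n)), g r) /
        (a n * δ n * Real.exp (a n * y + b n)) ≤ (c + η / 2) * (1 + a n * δ n) := by
      rw [div_le_iff₀ (by positivity)]
      refine h2.trans ?_
      have h6 : (Real.exp (a n * δ n) - 1) * Real.exp (a n * y + b n) ≤
          (a n * δ n * (1 + a n * δ n)) * Real.exp (a n * y + b n) :=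
        mul_le_mul_of_nonneg_right h3 hRp.le
      calc (c + η / 2) * ((Real.exp (a n * δ n) - 1) * Real.exp (a n * y + b n)) ≤
          (c + η / 2) * ((a n * δ n * (1 + a n * δ n)) * Real.exp (a n * y + b n)) :=
            mul_le_mul_of_nonneg_left h6 (by positivity)
        _ = _ := by ring
    have h7 := (abs_le.1 h1).2
    have h8 : a n * δ n * (2 * (c + η + 4)) ≤ η := by
      rw [le_div_iff₀ (by positivity)] at haδ2
      exact haδ2
    nlinarith
  have hlow : ∀ c : ℝ, LowM c g → ∀ η : ℝ, 0 < η → ∀ᶠ n in atTop, ∀ y, u ≤ y →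
      c - η ≤ Mv (Xf g (a n) (b n)) (δ n) y := by
    intro c hU η hη
    by_cases hcη : c - η ≤ 0
    · refine Eventually.of_forall fun n y _ => hcη.trans ?_
      unfold Mv
      apply div_nonneg _ (hδ0 n).le
      exact intervalIntegral.integral_nonneg (by linarith [hδ0 n]) fun s _ => hg0 _
    push Not at hcη
    obtain ⟨R₀, hR₀⟩ := hU (η / 2) (by linarith)
    filter_upwards [win_ev (g := g) ha hb hinf hu R₀ (η / 8) (by positivity)] with n hn y hy
    obtain ⟨q1, q2, q3, q4⟩ := hn y hy
    have haδ1 : a n * δ n ≤ 1 / 2 := q1.trans (min_le_left _ _)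
    have haδ2 : a n * δ n ≤ η / 8 := q1.trans (min_le_right _ _)
    have haδ0 : 0 < a n * δ n := mul_pos (by linarith [ha n]) (hδ0 n)
    have h1 := mean_eq (b := b n) (y := y) hg hgB (ha n) (hδ0 n) haδ1
    have h2 := hR₀ _ q2 _ q3 q4
    have hRp := Real.exp_pos (a n * y + b n)
    have h3 : a n * δ n ≤ Real.exp (a n * δ n) - 1 := by
      linarith [Real.add_one_le_exp (a n * δ n)]
    have h4 : c - η / 2 ≤ (∫ r in (Real.exp (a n * y + b n))..(Real.exp (a n * y + b n) +
        (Real.exp (a n * δ n) - 1) * Real.exp (a n * y + b n)), g r) /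
        (a n * δ n * Real.exp (a n * y + b n)) := by
      rw [le_div_iff₀ (by positivity)]
      refine le_trans ?_ h2
      apply mul_le_mul_of_nonneg_left _ (by linarith)
      exact mul_le_mul_of_nonneg_right h3 hRp.le
    have h7 := (abs_le.1 h1).1
    linarith
  filter_upwards [hcore] with y hy hyI
  have h1 := hy hyI
  have huy : u ≤ y := hyI.1.le
  have hsplit : ∀ N, ∑ n ∈ Finset.range N, w n * Xf g (a n) (b n) y =
      (∑ n ∈ Finset.range N, w n * (Xf g (a n) (b n) y - Mv (Xf g (a n) (b n)) (δ n) y)) +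
        ∑ n ∈ Finset.range N, w n * Mv (Xf g (a n) (b n)) (δ n) y := by
    intro N
    rw [← Finset.sum_add_distrib]
    exact Finset.sum_congr rfl fun n _ => by ring
  constructor
  · intro c hc hU η hη
    have h2 := ces (w := w) (f := fun n => max (Mv (Xf g (a n) (b n)) (δ n) y - c) 0) hw0 hLinf
      (fun n => le_max_right _ _) (fun η' hη' => by
        filter_upwards [hup c hc hU η' hη'] with n hn
        exact max_le (by linarith [hn y huy]) hη'.le)
    have h5 := h1.abs.add h2
    rw [abs_zero, add_zero] at h5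
    filter_upwards [h5.eventually (gt_mem_nhds hη), hLinf.eventually_gt_atTop 0] with N hN hpos
    rw [abs_div, abs_of_pos hpos, ← add_div, div_lt_iff₀ hpos] at hN
    have h6 : ∑ n ∈ Finset.range N, w n * Mv (Xf g (a n) (b n)) (δ n) y ≤
        (∑ n ∈ Finset.range N, w n * max (Mv (Xf g (a n) (b n)) (δ n) y - c) 0) +
          c * ∑ n ∈ Finset.range N, w n := by
      rw [Finset.mul_sum, ← Finset.sum_add_distrib]
      apply Finset.sum_le_sum
      intro n _
      have := le_max_left (Mv (Xf g (a n) (b n)) (δ n) y - c) 0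
      have := mul_le_mul_of_nonneg_left this (hw0 n)
      linarith
    have h9 := le_abs_self (∑ n ∈ Finset.range N, w n *
      (Xf g (a n) (b n) y - Mv (Xf g (a n) (b n)) (δ n) y))
    rw [hsplit N]
    linarith
  · intro c hU η hη
    have h2 := ces (w := w) (f := fun n => max (c - Mv (Xf g (a n) (b n)) (δ n) y) 0) hw0 hLinf
      (fun n => le_max_right _ _) (fun η' hη' => by
        filter_upwards [hlow c hU η' hη'] with n hn
        exact max_le (by linarith [hn y huy]) hη'.le)
    have h5 := h1.abs.add h2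
    rw [abs_zero, add_zero] at h5
    filter_upwards [h5.eventually (gt_mem_nhds hη), hLinf.eventually_gt_atTop 0] with N hN hpos
    rw [abs_div, abs_of_pos hpos, ← add_div, div_lt_iff₀ hpos] at hN
    have h6 : c * ∑ n ∈ Finset.range N, w n ≤
        (∑ n ∈ Finset.range N, w n * max (c - Mv (Xf g (a n) (b n)) (δ n) y) 0) +
          ∑ n ∈ Finset.range N, w n * Mv (Xf g (a n) (b n)) (δ n) y := by
      rw [Finset.mul_sum, ← Finset.sum_add_distrib]
      apply Finset.sum_le_sum
      intro n _
      have := le_max_left (c - Mv (Xf g (a n) (b n)) (δ n) y) 0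
      have := mul_le_mul_of_nonneg_left this (hw0 n)
      linarith
    have h9 := neg_abs_le (∑ n ∈ Finset.range N, w n *
      (Xf g (a n) (b n) y - Mv (Xf g (a n) (b n)) (δ n) y))
    rw [hsplit N]
    linarith

end Pool.Agent.K1H50.AL
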