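import Pool.Agent.R306.One.Nat
import Pool.Agent.K1H50.AL.Two

/-!
Sets of natural numbers with small or large relative density in windows of length at least `R ^ (7/8)`, along
almost every sequence `⌊b n * α ^ a n⌋`.
-/

set_option autoImplicit false

open MeasureTheory Filter Topology Set Real
open scoped ENNReal

namespace Pool.Agent.K1H50.AL

open Pool.Agent.R306.LogCov Pool.Agent.R306.LogAE Pool.Agent.R306.LogLaw
open Pool.Agent.R306.One (gE gE_meas gE_nonneg gE_le gE_abs gE_polyVar gE_int wt exp_pt)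

open Classical in
/-- relative density at most `ε` in dyadic windows of length at least `(2 ^ j) ^ (7/8)` -/
def DUp (ε : ℝ) (E : Set ℕ) : Prop := ∃ j₀ : ℕ, ∀ j : ℕ, j₀ ≤ j → ∀ Z Y : ℕ,
  ((2:ℝ) ^ j) ^ (7 / 8 : ℝ) ≤ Y → 2 ^ j ≤ Z + 1 → Z + Y < 2 ^ (j + 1) →
    (((Finset.Ioc Z (Z + Y)).filter (fun n => n ∈ E)).card : ℝ) ≤ ε * Y

open Classical in
lemma piece {ε : ℝ} (hε : 0 ≤ ε) {E : Set ℕ} {j : ℕ} (h : ∀ Z Y : ℕ,
    ((2:ℝ) ^ j) ^ (7 / 8 : ℝ) ≤ Y → 2 ^ j ≤ Z + 1 → Z + Y < 2 ^ (j + 1) →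
    (((Finset.Ioc Z (Z + Y)).filter (fun n => n ∈ E)).card : ℝ) ≤ ε * Y) {Z Y : ℕ}
    (h1 : 2 ^ j ≤ Z + 1) (h2 : Z + Y < 2 ^ (j + 1)) :
    (((Finset.Ioc Z (Z + Y)).filter (fun n => n ∈ E)).card : ℝ) ≤ ε * Y + ((2:ℝ) ^ j) ^ (7 / 8 : ℝ) := by
  by_cases hY : ((2:ℝ) ^ j) ^ (7 / 8 : ℝ) ≤ Y
  · have := h Z Y hY h1 h2
    have h3 : 0 ≤ ((2:ℝ) ^ j) ^ (7 / 8 : ℝ) := by positivity
    linarith
  · have h3 : (((Finset.Ioc Z (Z + Y)).filter (fun n => n ∈ E)).card : ℝ) ≤ Y := by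
      have h4 := Finset.card_filter_le (Finset.Ioc Z (Z + Y)) (fun n => n ∈ E)
      rw [Nat.card_Ioc, Nat.add_sub_cancel_left] at h4
      exact_mod_cast h4
    push Not at hY
    have h5 : 0 ≤ ε * Y := by positivity
    linarith

open Classical in
lemma upM {ε : ℝ} (hε : 0 ≤ ε) {E : Set ℕ} (hE : DUp ε E) : UpM ε (gE E) := by
  obtain ⟨j₀, hj₀⟩ := hE
  intro η hη
  have hev : ∀ᶠ R : ℝ in atTop, (4 + ε) / η ≤ R ^ (1 / 16 : ℝ) ∧ (2:ℝ) ^ (j₀ + 1) ≤ R ∧ 1 ≤ R :=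
    ((tendsto_rpow_atTop (by norm_num)).eventually_ge_atTop _).and
      ((eventually_ge_atTop _).and (eventually_ge_atTop _))
  obtain ⟨R₀, hR₀⟩ := eventually_atTop.1 hev
  refine ⟨R₀, fun R hR H hH1 hH2 => ?_⟩
  obtain ⟨q1, q2, q3⟩ := hR₀ R hR
  have hR0 : 0 ≤ R := by linarith
  have hH0 : 0 ≤ H := le_trans (by positivity) hH1
  have hint := gE_int E hR0 hH0
  refine hint.trans ?_
  set A := ⌊R⌋₊ with hA
  set D := ⌊R + H⌋₊ with hD
  have hAR : (A : ℝ) ≤ R := Nat.floor_le hR0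
  have hRA : R < A + 1 := Nat.lt_floor_add_one R
  have hDR : (D : ℝ) ≤ R + H := Nat.floor_le (by linarith)
  have hAD : A ≤ D := Nat.floor_mono (by linarith)
  have hA1 : 1 ≤ A := Nat.le_floor (by simpa using q3)
  have hA2 : 2 ^ (j₀ + 1) ≤ A := Nat.le_floor (by push_cast; exact q2)
  set j := Nat.log 2 A with hj
  have hjA : 2 ^ j ≤ A := Nat.pow_log_le_self 2 (by omega)
  have hAj : A < 2 ^ (j + 1) := Nat.lt_pow_succ_log_self (by norm_num) A
  have hjj : j₀ ≤ j := by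
    have h1 : 2 ^ (j₀ + 1) < 2 ^ (j + 1) := lt_of_le_of_lt hA2 hAj
    have := (Nat.pow_lt_pow_iff_right (by norm_num : 1 < 2)).1 h1
    omega
  have hD4 : D < 2 ^ (j + 1 + 1) := by
    have h1 : A + 1 ≤ 2 ^ (j + 1) := hAj
    have h2 : (A : ℝ) + 1 ≤ 2 ^ (j + 1) := by exact_mod_cast h1
    have h3 : (D : ℝ) < 2 ^ (j + 1 + 1) := by
      rw [pow_succ]
      linarith
    exact_mod_cast h3
  obtain ⟨S, hS⟩ : ∃ S : ℝ, S = R ^ (7 / 8 : ℝ) := ⟨_, rfl⟩
  have hjR : (2:ℝ) ^ j ≤ R := by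
    have : (2:ℝ) ^ j ≤ A := by exact_mod_cast hjA
    linarith
  have hsj : ((2:ℝ) ^ j) ^ (7 / 8 : ℝ) ≤ S := by
    rw [hS]
    exact Real.rpow_le_rpow (by positivity) hjR (by norm_num)
  have hsj1 : ((2:ℝ) ^ (j + 1)) ^ (7 / 8 : ℝ) ≤ 2 * S := by
    have h1 : ((2:ℝ) ^ (j + 1)) ^ (7 / 8 : ℝ) ≤ (2 * R) ^ (7 / 8 : ℝ) := by
      apply Real.rpow_le_rpow (by positivity) _ (by norm_num)
      rw [pow_succ]
      linarith
    have h2 : (2 * R) ^ (7 / 8 : ℝ) = (2:ℝ) ^ (7 / 8 : ℝ) * R ^ (7 / 8 : ℝ) :=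
      Real.mul_rpow (by norm_num) hR0
    have h3 : (2:ℝ) ^ (7 / 8 : ℝ) ≤ 2 := by
      calc (2:ℝ) ^ (7 / 8 : ℝ) ≤ (2:ℝ) ^ (1 : ℝ) :=
            Real.rpow_le_rpow_of_exponent_le (by norm_num) (by norm_num)
        _ = 2 := Real.rpow_one 2
    refine h1.trans ?_
    rw [h2, hS]
    exact mul_le_mul_of_nonneg_right h3 (by positivity)
  have hS1 : 1 ≤ S := by rw [hS]; exact Real.one_le_rpow q3 (by norm_num)
  -- the first integer
  have hfirst : ((((Finset.Icc A D).filter (fun n => n ∈ E)).card : ℕ) : ℝ) ≤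
      1 + (((Finset.Ioc A D).filter (fun n => n ∈ E)).card : ℝ) := by
    have h1 : (Finset.Icc A D).filter (fun n => n ∈ E) ⊆
        insert A ((Finset.Ioc A D).filter (fun n => n ∈ E)) := by
      intro n hn
      rw [Finset.mem_filter, Finset.mem_Icc] at hn
      rw [Finset.mem_insert, Finset.mem_filter, Finset.mem_Ioc]
      by_cases h : n = A
      · exact Or.inl h
      · exact Or.inr ⟨⟨by omega, hn.1.2⟩, hn.2⟩
    have h2 := (Finset.card_le_card h1).trans (Finset.card_insert_le _ _)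
    have h3 : ((((Finset.Icc A D).filter (fun n => n ∈ E)).card : ℕ) : ℝ) ≤
        ((((Finset.Ioc A D).filter (fun n => n ∈ E)).card + 1 : ℕ) : ℝ) := by exact_mod_cast h2
    push_cast at h3
    linarith
  have hmain : (((Finset.Ioc A D).filter (fun n => n ∈ E)).card : ℝ) ≤ ε * (D - A) + 3 * S := by
    by_cases hc : D < 2 ^ (j + 1)
    · have h1 := piece hε (hj₀ j hjj) (Z := A) (Y := D - A) (by omega) (by omega)
      rw [Nat.add_sub_cancel' hAD, Nat.cast_sub hAD] at h1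
      linarith
    · push Not at hc
      have hAB : A ≤ 2 ^ (j + 1) - 1 := by omega
      have hBD : 2 ^ (j + 1) - 1 ≤ D := by omega
      obtain ⟨B, hB⟩ : ∃ B, B = 2 ^ (j + 1) - 1 := ⟨_, rfl⟩
      rw [← hB] at hAB hBD
      have hB1 : B + 1 = 2 ^ (j + 1) := by
        have : 0 < 2 ^ (j + 1) := by positivity
        omega
      have h1 := piece hε (hj₀ j hjj) (Z := A) (Y := B - A) (by omega) (by omega)
      have h2 := piece hε (hj₀ (j + 1) (by omega)) (Z := B) (Y := D - B) (by omega) (by omega)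
      rw [Nat.add_sub_cancel' hAB, Nat.cast_sub hAB] at h1
      rw [Nat.add_sub_cancel' hBD, Nat.cast_sub hBD] at h2
      have h3 : (Finset.Ioc A D).filter (fun n => n ∈ E) ⊆
          (Finset.Ioc A B).filter (fun n => n ∈ E) ∪ (Finset.Ioc B D).filter (fun n => n ∈ E) := by
        intro n hn
        rw [Finset.mem_filter, Finset.mem_Ioc] at hn
        rw [Finset.mem_union, Finset.mem_filter, Finset.mem_filter, Finset.mem_Ioc, Finset.mem_Ioc]
        by_cases h : n ≤ B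
        · exact Or.inl ⟨⟨hn.1.1, h⟩, hn.2⟩
        · exact Or.inr ⟨⟨by omega, hn.1.2⟩, hn.2⟩
      have h4 := (Finset.card_le_card h3).trans (Finset.card_union_le _ _)
      have h5 : (((Finset.Ioc A D).filter (fun n => n ∈ E)).card : ℝ) ≤
          (((Finset.Ioc A B).filter (fun n => n ∈ E)).card : ℝ) +
          (((Finset.Ioc B D).filter (fun n => n ∈ E)).card : ℝ) := by exact_mod_cast h4
      nlinarith
  have hRe : R ^ (15 / 16 : ℝ) = R ^ (1 / 16 : ℝ) * S := by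
    rw [hS, ← Real.rpow_add (by linarith)]
    norm_num
  have hfin : (4 + ε) * S ≤ η * H := by
    rw [div_le_iff₀ hη] at q1
    calc (4 + ε) * S ≤ (R ^ (1 / 16 : ℝ) * η) * S := mul_le_mul_of_nonneg_right q1 (by linarith)
      _ = η * R ^ (15 / 16 : ℝ) := by rw [hRe]; ring
      _ ≤ η * H := mul_le_mul_of_nonneg_left hH1 hη.le
  have h6 : ε * (D - A) ≤ ε * (H + 1) := mul_le_mul_of_nonneg_left (by linarith) hε
  have h7 : ε ≤ ε * S := le_mul_of_one_le_right hε hS1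
  nlinarith

lemma gE_compl (E : Set ℕ) (r : ℝ) : gE E r = 1 - gE Eᶜ r := by
  classical
  unfold gE
  rw [Set.indicator_apply, Set.indicator_apply]
  by_cases h : ⌊r⌋₊ ∈ E
  · rw [if_pos h, if_neg (by simpa using h)]
    norm_num
  · rw [if_neg h, if_pos (by simpa using h)]
    norm_num

lemma lowM {c : ℝ} (hc : c ≤ 1) {E : Set ℕ} (hE : DUp (1 - c) Eᶜ) : LowM c (gE E) := by
  have h := upM (by linarith) hE
  intro η hη
  obtain ⟨R₀, hR₀⟩ := h η hη
  refine ⟨R₀, fun R hR H h1 h2 => ?_⟩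
  have h3 := hR₀ R hR H h1 h2
  have hi : IntervalIntegrable (gE Eᶜ) volume R (R + H) := bint (gE_meas _) (gE_abs _) _ _
  have e : ∫ r in R..(R + H), gE E r = H - ∫ r in R..(R + H), gE Eᶜ r := by
    have e1 : (fun r => gE E r) = fun r => 1 - gE Eᶜ r := funext fun r => gE_compl E r
    rw [e1, intervalIntegral.integral_sub intervalIntegrable_const hi]
    simp
  rw [e]
  linarith

open Classical in
/-- **almost all sequences** -/
theorem ae_nat2 {E : Set ℕ} {a b : ℕ → ℝ}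
    (ha : ∀ n, 1 ≤ a n) (hb : ∀ n, 1 ≤ b n) (hmono : Monotone fun n => a n + Real.log (b n))
    (hinf : Tendsto (fun n => a n + Real.log (b n)) atTop atTop)
    (hC : ∃ C : ℝ, ∀ n, a (n + 1) + Real.log (b (n + 1)) ≤ C * (a n + Real.log (b n))) :
    ∀ᵐ α : ℝ, 1 < α →
      (∀ ε : ℝ, 0 ≤ ε → DUp ε E → ∀ η : ℝ, 0 < η → ∀ᶠ N in atTop,
        ∑ n ∈ Finset.range N, (if ⌊b n * α ^ (a n)⌋₊ ∈ E then wt a b n else 0) ≤
          (ε + η) * ∑ n ∈ Finset.range N, wt a b n) ∧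
      (∀ c : ℝ, c ≤ 1 → DUp (1 - c) Eᶜ → ∀ η : ℝ, 0 < η → ∀ᶠ N in atTop,
        (c - η) * ∑ n ∈ Finset.range N, wt a b n ≤
          ∑ n ∈ Finset.range N, (if ⌊b n * α ^ (a n)⌋₊ ∈ E then wt a b n else 0)) := by
  obtain ⟨C, hC⟩ := hC
  have hb0 : ∀ n, 0 < b n := fun n => lt_of_lt_of_le one_pos (hb n)
  have hlb : ∀ n, 0 ≤ Real.log (b n) := fun n => Real.log_nonneg (hb n)
  have key : ∀ j : ℕ, ∀ᵐ y : ℝ, y ∈ Ioc (1 / ((j : ℝ) + 1)) ((j : ℝ) + 1) →
      (∀ c : ℝ, 0 ≤ c → UpM c (gE E) → ∀ η : ℝ, 0 < η → ∀ᶠ N in atTop, ∑ n ∈ Finset.range N,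
        (Real.log (a (n + 1) + Real.log (b (n + 1))) - Real.log (a n + Real.log (b n))) *
          Xf (gE E) (a n) (Real.log (b n)) y ≤ (c + η) * ∑ n ∈ Finset.range N,
          (Real.log (a (n + 1) + Real.log (b (n + 1))) - Real.log (a n + Real.log (b n)))) ∧
      (∀ c : ℝ, LowM c (gE E) → ∀ η : ℝ, 0 < η → ∀ᶠ N in atTop,
        (c - η) * ∑ n ∈ Finset.range N,
          (Real.log (a (n + 1) + Real.log (b (n + 1))) - Real.log (a n + Real.log (b n))) ≤
        ∑ n ∈ Finset.range N,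
        (Real.log (a (n + 1) + Real.log (b (n + 1))) - Real.log (a n + Real.log (b n))) *
          Xf (gE E) (a n) (Real.log (b n)) y) := by
    intro j
    exact ae_two (gE_meas E) (gE_nonneg E) (gE_le E) (gE_polyVar E) ha hlb hmono hinf hC
      (u := 1 / ((j : ℝ) + 1)) (v := (j : ℝ) + 1) (by positivity) (by
          rw [div_le_iff₀ (by positivity)]
          nlinarith [Nat.cast_nonneg (α := ℝ) j])
  have key2 := ae_all_iff.2 key
  rw [ae_iff] at key2
  have h3 := MeasureTheory.addHaar_image_eq_zero_of_differentiableOn_of_addHaar_eq_zero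
    (volume : Measure ℝ) (f := Real.exp) Real.differentiable_exp.differentiableOn key2
  rw [ae_iff]
  refine measure_mono_null ?_ h3
  intro α hα
  rw [Set.mem_ofPred_eq, Classical.not_imp] at hα
  obtain ⟨hα1, hα2⟩ := hα
  have hα0 : 0 < α := by linarith
  refine ⟨Real.log α, ?_, Real.exp_log hα0⟩
  change ¬ _
  intro hall
  apply hα2
  have hl : 0 < Real.log α := Real.log_pos hα1
  obtain ⟨j, hj⟩ := exists_nat_gt (max (1 / Real.log α) (Real.log α))
  have hj1 : 1 / Real.log α < j := (le_max_left _ _).trans_lt hj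
  have hj2 : Real.log α < j := (le_max_right _ _).trans_lt hj
  have h4 := hall j ⟨by
    rw [div_lt_iff₀ hl] at hj1
    rw [div_lt_iff₀ (by positivity)]
    nlinarith, by linarith⟩
  have hsum : ∀ N, ∑ n ∈ Finset.range N, (if ⌊b n * α ^ (a n)⌋₊ ∈ E then wt a b n else 0) =
      ∑ n ∈ Finset.range N,
        (Real.log (a (n + 1) + Real.log (b (n + 1))) - Real.log (a n + Real.log (b n))) *
          Xf (gE E) (a n) (Real.log (b n)) (Real.log α) := by
    intro N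
    refine Finset.sum_congr rfl fun n _ => ?_
    unfold Xf wt gE
    rw [exp_pt hb0 hα0, Set.indicator_apply]
    split_ifs <;> simp
  constructor
  · intro ε hε hE η hη
    filter_upwards [h4.1 ε hε (upM hε hE) η hη] with N hN
    rw [hsum]
    exact hN
  · intro c hc hE η hη
    filter_upwards [h4.2 c (lowM hc hE) η hη] with N hN
    rw [hsum]
    exact hN

end Pool.Agent.K1H50.AL
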